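import Mathlib
import Pool.Agent.Helper669.Dom

/-!
# The negative polarized relation for all cardinals with the cofinality of the dominating number
-/

namespace Pool.Agent.Y767.DN

open Cardinal Filter Pool.Agent.Helper669.Dom

/-- A sequence of `𝔡` many sets such that every infinite set is split by all but boundedly many
of them. -/
theorem rows (hr : Splits dNum) : ∃ S : dNum.ord.ToType → Set ℕ, ∀ B : Set ℕ, B.Infinite →
    ∃ x0, ∀ x, x0 < x → (∃ q ∈ B, q ∈ S x) ∧ ∃ q ∈ B, q ∉ S x := by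
  classical
  obtain ⟨F, hF, hcard⟩ := exists_dominating
  let X : Type := dNum.ord.ToType
  have hX : #X = dNum := by rw [mk_toType, card_ord]
  obtain ⟨e⟩ : Nonempty (X ≃ F) := Cardinal.eq.1 (hX.trans hcard.symm)
  let g : X → ℕ → ℕ := fun x m => (e x).1 m + m + 1
  have hIio : ∀ x : X, #(Set.Iio x) < dNum := fun x => by
    have := Cardinal.mk_Iio_lt x (by rw [Cardinal.mk_toType, Cardinal.card_ord,
      Ordinal.type_toType])
    rwa [Cardinal.mk_toType, Cardinal.card_ord] at this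
  have hchoice : ∀ x : X, ∃ (a : ℕ → ℕ) (R : Set ℕ), StrictMono a ∧ a 0 = 0 ∧
      ∀ j < x, ({n | ∃ m, a n ≤ m ∧ g j m ≤ a (n + 1)} ∩ R).Infinite ∧
        ({n | ∃ m, a n ≤ m ∧ g j m ≤ a (n + 1)} \ R).Infinite := by
    intro x
    obtain ⟨a, ha, h0, h⟩ := partition_lemma (ι := Set.Iio x) (hIio x) (fun j => g j.1)
    obtain ⟨R, hR⟩ := hr (Set.Iio x) (fun j => {n | ∃ m, a n ≤ m ∧ g j.1 m ≤ a (n + 1)}) (hIio x)
      (fun j => Set.infinite_of_forall_exists_gt fun N => by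
        obtain ⟨n, hn, hm⟩ := h j (N + 1)
        exact ⟨n, hm, by omega⟩)
    exact ⟨a, R, ha, h0, fun j hj => hR ⟨j, hj⟩⟩
  choose a R ha h0 hR using hchoice
  refine ⟨fun x => {m | ∃ n ∈ R x, a x n ≤ m ∧ m < a x (n + 1)}, fun B hB => ?_⟩
  obtain ⟨nx, hnx⟩ := exists_nx hB
  obtain ⟨f, hf, hev⟩ := hF nx
  obtain ⟨x0, hx0⟩ := e.surjective ⟨f, hf⟩
  obtain ⟨m0, hm0⟩ := eventually_atTop.1 hev
  have hgx : ∀ m ≥ m0, nx m < g x0 m := by
    intro m hm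
    have h1 := hm0 m hm
    show nx m < (e x0).1 m + m + 1
    rw [hx0]
    show nx m < f m + m + 1
    omega
  refine ⟨x0, fun x hx => ?_⟩
  obtain ⟨hinf1, hinf2⟩ := hR x x0 hx
  have key : ∀ n ≥ m0, (∃ m, a x n ≤ m ∧ g x0 m ≤ a x (n + 1)) →
      ∃ q ∈ B, a x n ≤ q ∧ q < a x (n + 1) := by
    rintro n hn ⟨m, hm1, hm2⟩
    have h1 : m0 ≤ m := hn.trans (((ha x).id_le n).trans hm1)
    have h2 := hgx m h1
    have h3 := (hnx m).2
    exact ⟨nx m, (hnx m).1, by omega, by omega⟩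
  obtain ⟨n1, ⟨hE1, hR1⟩, hn1⟩ := hinf1.exists_gt m0
  obtain ⟨n2, ⟨hE2, hR2⟩, hn2⟩ := hinf2.exists_gt m0
  obtain ⟨q1, hq1, h11, h12⟩ := key n1 hn1.le hE1
  obtain ⟨q2, hq2, h21, h22⟩ := key n2 hn2.le hE2
  refine ⟨⟨q1, hq1, ⟨n1, hR1, h11, h12⟩⟩, ⟨q2, hq2, ?_⟩⟩
  rintro ⟨n, hn, h3, h4⟩
  have := block_unique (ha x) h3 h4 h21 h22
  exact hR2 (this ▸ hn)

/-- Two well-orders with the same cofinality: a map which tends to infinity. -/
theorem transfer (X Y : Type) [LinearOrder X] [WellFoundedLT X] [LinearOrder Y] [WellFoundedLT Y]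
    (hcof : Order.cof Y = Order.cof X) :
    ∃ h : Y → X, ∀ x0 : X, ∃ y0 : Y, ∀ y, y0 < y → x0 < h y := by
  classical
  obtain ⟨S, hS, hS'⟩ := Ordinal.exists_ord_cof_eq X
  obtain ⟨T, hT, hT'⟩ := Ordinal.exists_ord_cof_eq Y
  have hTS : Ordinal.type (α := T) (· < ·) = Ordinal.type (α := S) (· < ·) := by
    rw [hS', hT', hcof]
  obtain ⟨e⟩ := Ordinal.type_eq.1 hTS
  have hne : ∀ y : Y, {t : T | y ≤ t.1}.Nonempty := fun y => by
    obtain ⟨t, ht, hyt⟩ := hT y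
    exact ⟨⟨t, ht⟩, hyt⟩
  let m : Y → T := fun y => WellFounded.min (wellFounded_lt (α := T)) {t : T | y ≤ t.1} (hne y)
  have hm : ∀ y, y ≤ (m y).1 := fun y =>
    WellFounded.min_mem (wellFounded_lt (α := T)) {t : T | y ≤ t.1} (hne y)
  refine ⟨fun y => (e (m y)).1, fun x0 => ?_⟩
  obtain ⟨s, hs, hxs⟩ := hS x0
  refine ⟨(e.symm ⟨s, hs⟩).1, fun y hy => ?_⟩
  have h1 : e.symm ⟨s, hs⟩ < m y := Subtype.coe_lt_coe.1 (hy.trans_le (hm y))
  have h2 : e (e.symm ⟨s, hs⟩) < e (m y) := e.map_rel_iff.2 h1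
  rw [e.apply_symm_apply] at h2
  exact hxs.trans_lt (Subtype.coe_lt_coe.2 h2)

/-- The colouring. -/
theorem colouring (hr : Splits dNum) {lam : Cardinal.{0}} (hlam : lam.ord.cof = dNum.ord.cof) :
    ∃ c : lam.ord.ToType → ℕ → Fin 2, ∀ B : Set ℕ, B.Infinite →
      ∃ y0, ∀ y, y0 < y → ∃ p ∈ B, ∃ q ∈ B, c y p ≠ c y q := by
  classical
  obtain ⟨S, hS⟩ := rows hr
  obtain ⟨h, hh⟩ := transfer dNum.ord.ToType lam.ord.ToType
    (by rw [Ordinal.cof_toType, Ordinal.cof_toType, hlam])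
  refine ⟨fun y q => if q ∈ S (h y) then 1 else 0, fun B hB => ?_⟩
  obtain ⟨x0, hx0⟩ := hS B hB
  obtain ⟨y0, hy0⟩ := hh x0
  refine ⟨y0, fun y hy => ?_⟩
  obtain ⟨⟨p, hp, hpS⟩, ⟨q, hq, hqS⟩⟩ := hx0 (h y) (hy0 y hy)
  refine ⟨p, hp, q, hq, ?_⟩
  show (if p ∈ S (h y) then (1 : Fin 2) else 0) ≠ if q ∈ S (h y) then (1 : Fin 2) else 0
  rw [if_pos hpS, if_neg hqS]
  decide

theorem not_polarized {lam : Cardinal.{0}} (hinf : ℵ₀ ≤ lam)
    (hc : ∃ c : lam.ord.ToType → ℕ → Fin 2, ∀ B : Set ℕ, B.Infinite →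
      ∃ y0, ∀ y, y0 < y → ∃ p ∈ B, ∃ q ∈ B, c y p ≠ c y q) :
    ¬ StrongPolarized lam ℵ₀ := by
  classical
  intro hpos
  obtain ⟨c, hc⟩ := hc
  have hX : #(lam.ord.ToType) = lam := by rw [mk_toType, card_ord]
  obtain ⟨e1⟩ : Nonempty (lam.out ≃ lam.ord.ToType) := Cardinal.eq.1 ((mk_out _).trans hX.symm)
  obtain ⟨e2⟩ : Nonempty ((ℵ₀ : Cardinal.{0}).out ≃ ℕ) :=
    Cardinal.eq.1 ((mk_out _).trans mk_nat.symm)
  obtain ⟨A, B, hA, hB, i, hi⟩ := hpos fun p q => c (e1 p) (e2 q)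
  have hBinf : (e2 '' B).Infinite := by
    rw [← Set.infinite_coe_iff, Cardinal.infinite_iff, Cardinal.mk_image_eq e2.injective, hB]
  obtain ⟨y0, hy0⟩ := hc _ hBinf
  have hsub : e1 '' A ⊆ Set.Iic y0 := by
    rintro _ ⟨p, hp, rfl⟩
    by_contra hlt
    obtain ⟨_, ⟨q1, hq1, rfl⟩, _, ⟨q2, hq2, rfl⟩, hne⟩ := hy0 _ (not_le.1 hlt)
    exact hne ((hi p hp q1 hq1).trans (hi p hp q2 hq2).symm)
  have hle : lam ≤ #(Set.Iic y0) := by
    have h1 : lam = #(e1 '' A) := hA.symm.trans (Cardinal.mk_image_eq e1.injective).symm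
    exact h1.le.trans (mk_le_mk_of_subset hsub)
  have hIio : #(Set.Iio y0) < lam := by
    have := Cardinal.mk_Iio_lt y0 (by rw [Cardinal.mk_toType, Cardinal.card_ord,
      Ordinal.type_toType])
    rwa [Cardinal.mk_toType, Cardinal.card_ord] at this
  have hlt : #(Set.Iic y0) < lam := by
    have h1 : Set.Iic y0 = insert y0 (Set.Iio y0) := (Set.Iio_insert).symm
    rw [h1]
    exact (mk_insert_le).trans_lt (add_lt_of_lt hinf hIio (one_lt_aleph0.trans_le hinf))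
  exact absurd hle (not_le.2 hlt)

theorem aleph0_le_of_cof {lam : Cardinal.{0}} (hlam : lam.ord.cof = dNum.ord.cof) : ℵ₀ ≤ lam := by
  have h1 : ℵ₀ ≤ dNum.ord.cof :=
    Ordinal.aleph0_le_cof_iff.2 (Ordinal.one_lt_cof_iff.2
      (Cardinal.isSuccLimit_ord aleph0_lt_dNum.le))
  rw [← hlam] at h1
  exact h1.trans (Ordinal.cof_ord_le lam)

end Pool.Agent.Y767.DN
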